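import Pool.Agent.Work.MP_60abc6_co.DEL.KappaR

set_option autoImplicit false

namespace Pool.Agent.Results.MP_60abc6_co.KappaAsymptotic

open Pool.Agent.Work.MP_60abc6_co

/-- The asymptotic value of `e_κ(n; k, l)`, uniformly in `2 ≤ l < k < n`, as `k → ∞`. -/
theorem result : ∀ ε : ℝ, 0 < ε → ∃ k₀ : ℕ, ∀ n k l : ℕ, k₀ ≤ k → 2 ≤ l → l < k → k < n →
    |(eKappa n k l : ℝ) - ((k : ℝ) - l) * n / 2| ≤ ε * min (l : ℝ) ((k : ℝ) - l) * n :=
  DEL.kappa_min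

end Pool.Agent.Results.MP_60abc6_co.KappaAsymptotic
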