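import Pool.Agent.Work.MP_60abc6_co.SwStep

set_option autoImplicit false

namespace Pool.Agent.Results.MP_60abc6_co.KappaExact

open Pool.Agent.Work.MP_60abc6_co

/-- in the range `3 n ≤ 4 l + 7` the trivial upper bound for `e_κ(n; k, l)` is its value -/
theorem result : ∀ n k l : ℕ, 1 ≤ l → l < k → k < n → 3 * n ≤ 4 * l + 7 →
    eKappa n k l = (k * n + 1) / 2 - (l * n + 1) / 2 :=
  fun _ _ _ hl hlk hkn hn => eKappa_exact hl hlk hkn hn

end Pool.Agent.Results.MP_60abc6_co.KappaExact
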