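import Pool.Agent.Work.MP_60abc6_co.DEL.Final

set_option autoImplicit false

namespace Pool.Agent.Results.MP_60abc6_co.LambdaAsymptotic

open Pool.Agent.Work.MP_60abc6_co

/-- The asymptotic value of `e_λ(n; k, l)`, uniformly in `2 ≤ l < k < n`, as `k → ∞`. -/
theorem result : ∀ ε : ℝ, 0 < ε → ∃ k₀ : ℕ, ∀ n k l : ℕ, k₀ ≤ k → 2 ≤ l → l < k → k < n →
    |(eLambda n k l : ℝ) - ((k : ℝ) - l) * n / 2| ≤ ε * n :=
  DEL.asymptotic_k

end Pool.Agent.Results.MP_60abc6_co.LambdaAsymptotic
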