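import Pool.Agent.Work.MP_60abc6_co.Trans

set_option autoImplicit false

namespace Pool.Agent.Results.MP_60abc6_co.OddUpper

open Pool.Agent.Work.MP_60abc6_co

/-- for every odd `l` and every `k > l`, both numbers are smaller than `(k - l) n / 2` by a positive
proportion of `n`, for infinitely many `n` -/
theorem result : ∀ k l : ℕ, Odd l → l < k →
    (Even k → ∀ m n : ℕ, 2 * k ≤ m → n = m * (k + 1) →
      2 * eKappa n k l + m ≤ (k - l) * n ∧ 2 * eLambda n k l + m ≤ (k - l) * n) ∧
    (Odd k → ∀ p n : ℕ, 2 ≤ p → n = p * (k + 1) ^ 2 →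
      2 * eKappa n k l + p * (k - l) ≤ (k - l) * n ∧
      2 * eLambda n k l + p * (k - l) ≤ (k - l) * n) := by
  intro k l hl hlk
  refine ⟨fun hk m n hm hn => ?_, fun hk p n hp hn => ?_⟩
  · subst hn
    exact upper_even hlk (Nat.even_iff.mp hk) (Nat.odd_iff.mp hl) hm
  · subst hn
    exact upper_odd hlk (Nat.odd_iff.mp hk) (Nat.odd_iff.mp hl) hp

end Pool.Agent.Results.MP_60abc6_co.OddUpper
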